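import Mathlib

/-!
# Shrinking a box

`shrink`: for `N i ≥ 1` and real `q ≥ 1` there are `M i` with `2 M i + 1 ≤ N i`,
`∏ N i ≤ 3 * 2 ^ d * q * ∏ (2 M i + 1)` and either `q * ∏ (2 M i + 1) ≤ ∏ N i` or
`∏ (2 M i + 1) = 1`.
-/

set_option autoImplicit false

open Finset

namespace Pool.Agent.TH893.PP

lemma shrink {d : ℕ} (N : Fin d → ℕ) (hN : ∀ i, 1 ≤ N i) (q : ℝ) (hq : 1 ≤ q) :
    ∃ M : Fin d → ℕ, (∀ i, 2 * M i + 1 ≤ N i) ∧
      ((∏ i, N i : ℕ) : ℝ) ≤ 3 * 2 ^ d * q * ((∏ i, (2 * M i + 1) : ℕ) : ℝ) ∧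
      (q * ((∏ i, (2 * M i + 1) : ℕ) : ℝ) ≤ ((∏ i, N i : ℕ) : ℝ) ∨ ∏ i, (2 * M i + 1) = 1) := by
  classical
  by_cases h0 : q ≤ ((∏ i, N i : ℕ) : ℝ)
  · -- maximal choice
    set F : Finset (Fin d → ℕ) := (Fintype.piFinset (fun i => range (N i))).filter
      (fun M => (∀ i, 2 * M i + 1 ≤ N i) ∧
        q * ((∏ i, (2 * M i + 1) : ℕ) : ℝ) ≤ ((∏ i, N i : ℕ) : ℝ)) with hF
    have hFn : F.Nonempty := by
      refine ⟨fun _ => 0, mem_filter.mpr ⟨Fintype.mem_piFinset.mpr (fun i => ?_), fun i => ?_, ?_⟩⟩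
      · exact mem_range.mpr (hN i)
      · simpa using hN i
      · simpa using h0
    obtain ⟨M, hMF, hMmax⟩ := exists_max_image F (fun M => ∏ i, (2 * M i + 1)) hFn
    obtain ⟨_, hM1, hM2⟩ := mem_filter.mp hMF
    refine ⟨M, hM1, ?_, Or.inl hM2⟩
    have hPp : (0 : ℝ) < ((∏ i, (2 * M i + 1) : ℕ) : ℝ) := by
      exact_mod_cast prod_pos (fun i _ => by omega)
    by_cases hex : ∃ i, 2 * M i + 3 ≤ N i
    · obtain ⟨i, hi⟩ := hex
      by_contra hcon
      push Not at hcon
      set M' : Fin d → ℕ := Function.update M i (M i + 1) with hM'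
      have hprod : ∏ j, (2 * M' j + 1) = (2 * (M i + 1) + 1) * ∏ j ∈ univ.erase i, (2 * M j + 1) := by
        rw [← mul_prod_erase univ (fun j => 2 * M' j + 1) (mem_univ i)]
        congr 1
        · rw [hM']
          simp
        · apply prod_congr rfl
          intro j hj
          rw [hM', Function.update_of_ne (ne_of_mem_erase hj)]
      have hprod0 : ∏ j, (2 * M j + 1) = (2 * M i + 1) * ∏ j ∈ univ.erase i, (2 * M j + 1) :=
        (mul_prod_erase univ (fun j => 2 * M j + 1) (mem_univ i)).symm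
      have hRp : 0 < ∏ j ∈ univ.erase i, (2 * M j + 1) := prod_pos (fun j _ => by omega)
      have hle3 : ∏ j, (2 * M' j + 1) ≤ 3 * ∏ j, (2 * M j + 1) := by
        rw [hprod, hprod0, ← mul_assoc]
        apply Nat.mul_le_mul_right
        omega
      have hlt : ∏ j, (2 * M j + 1) < ∏ j, (2 * M' j + 1) := by
        rw [hprod, hprod0]
        apply Nat.mul_lt_mul_of_pos_right _ hRp
        omega
      have hmem : M' ∈ F := by
        refine mem_filter.mpr ⟨Fintype.mem_piFinset.mpr (fun j => mem_range.mpr ?_), fun j => ?_, ?_⟩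
        · by_cases hj : j = i
          · rw [hj, hM', Function.update_self]
            omega
          · rw [hM', Function.update_of_ne hj]
            have := hM1 j
            omega
        · by_cases hj : j = i
          · rw [hj, hM', Function.update_self]
            omega
          · rw [hM', Function.update_of_ne hj]
            exact hM1 j
        · have e3 : ((∏ j, (2 * M' j + 1) : ℕ) : ℝ) ≤ 3 * ((∏ j, (2 * M j + 1) : ℕ) : ℝ) := by
            exact_mod_cast hle3
          have e4 : (1 : ℝ) ≤ 2 ^ d := one_le_pow₀ (by norm_num)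
          have e5 : 3 * q * ((∏ j, (2 * M j + 1) : ℕ) : ℝ)
              ≤ 3 * 2 ^ d * q * ((∏ j, (2 * M j + 1) : ℕ) : ℝ) := by
            apply mul_le_mul_of_nonneg_right _ hPp.le
            nlinarith
          calc q * ((∏ j, (2 * M' j + 1) : ℕ) : ℝ)
              ≤ q * (3 * ((∏ j, (2 * M j + 1) : ℕ) : ℝ)) :=
                mul_le_mul_of_nonneg_left e3 (by linarith)
            _ = 3 * q * ((∏ j, (2 * M j + 1) : ℕ) : ℝ) := by ring
            _ ≤ _ := e5
            _ ≤ _ := hcon.le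
      exact absurd (hMmax M' hmem) (not_le.mpr hlt)
    · push Not at hex
      have h1 : ∏ i, N i ≤ ∏ i, (2 * (2 * M i + 1)) := by
        apply prod_le_prod (fun i _ => Nat.zero_le _)
        intro i _
        have := hex i
        have := hM1 i
        omega
      rw [prod_mul_distrib, prod_const, card_univ, Fintype.card_fin] at h1
      have h2 : ((∏ i, N i : ℕ) : ℝ) ≤ 2 ^ d * ((∏ i, (2 * M i + 1) : ℕ) : ℝ) := by
        exact_mod_cast h1
      refine h2.trans ?_
      apply mul_le_mul_of_nonneg_right _ hPp.le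
      have e4 : (0 : ℝ) < 2 ^ d := by positivity
      nlinarith
  · push Not at h0
    refine ⟨fun _ => 0, fun i => by simpa using hN i, ?_, Or.inr (by simp)⟩
    have e4 : (1 : ℝ) ≤ 2 ^ d := one_le_pow₀ (by norm_num)
    have e1 : ((∏ i : Fin d, (2 * 0 + 1) : ℕ) : ℝ) = 1 := by simp
    rw [e1]
    nlinarith

end Pool.Agent.TH893.PP
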