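import Pool.Agent.TH360.PF.Main
import Pool.Agent.H112R2.FinalGap

/-!
# Freiman-Ruzsa for sets commensurable with a Cartesian product

Let `D 0, ..., D (n-1)` be finite sets in a torsion-free abelian group `Z`, `n` arbitrary, with
`|D i + D i| ≤ c i |D i|` and `c i ≤ C`.  Let `A` be a finite set in an abelian group `Γ` with
`|A + A| ≤ K |A|` that is covered by at most `L` translates of `ψ (∏ D i)`, where
`∏ |D i| ≤ L |A|` and the homomorphism `ψ : Z ^ n → Γ` is injective on `∏ D i + ∏ D i`.  Put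
`W = 512 K ^ 8 L ^ 10 ∏ c i`.  Then `A` is covered by `L W ^ (17000 (1 + log (1 + log (2 C))))`
translates of a progression of rank at most `300 log W` and volume at most `L |A|`.  At most
`log (512 K ^ 8 L ^ 10) / log 2` of the sets `D i` have more than one element, so for fixed `C` the
bounds are polynomial in `K` and `L`.
-/

set_option autoImplicit false

namespace Pool.Agent.TH893.PP

open Finset
open scoped Pointwise

/-- The number of nontrivial factors of a product that has a dense subset of small doubling. -/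
lemma factors {Z : Type*} [AddCommGroup Z] [DecidableEq Z] [IsAddTorsionFree Z] {n : ℕ}
    (D : Fin n → Finset Z) (S : Finset (Fin n → Z)) (hS : S.Nonempty)
    (hSD : S ⊆ Fintype.piFinset D) (K L : ℝ)
    (hK : ((S + S).card : ℝ) ≤ K * S.card) (hL : ((Fintype.piFinset D).card : ℝ) ≤ L * S.card) :
    (2 : ℝ) ^ (univ.filter (fun i => 2 ≤ (D i).card)).card ≤ 512 * K ^ 8 * L := by
  obtain ⟨B, m, hBS, hm1, hBc, hSB, hm2, hm3⟩ := Pool.Agent.TH360.PF.main S hS K (Or.inl hK)
  have hSp : (0 : ℝ) < S.card := by exact_mod_cast hS.card_pos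
  have hBn : B.Nonempty := by
    rw [← card_pos, hBc]
    exact prod_pos (fun i _ => hm1 i)
  have hBp : (0 : ℝ) < B.card := by exact_mod_cast hBn.card_pos
  have hmD : ∀ i, m i ≤ (D i).card := by
    intro i
    obtain ⟨b, hb⟩ := hBn
    rw [← hm3 b hb i]
    apply card_le_card
    intro z hz
    obtain ⟨c, hc, rfl⟩ := mem_image.mp hz
    exact Fintype.mem_piFinset.mp (hSD (hBS (mem_filter.mp hc).1)) i
  have key : (2 : ℝ) ^ (univ.filter (fun i => 2 ≤ (D i).card)).card * (∏ i, (m i : ℝ))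
      ≤ 2 ^ (univ.filter (fun i => m i ≠ 1)).card * ∏ i, ((D i).card : ℝ) := by
    have e1 : (2 : ℝ) ^ (univ.filter (fun i => 2 ≤ (D i).card)).card
        = ∏ i, (if 2 ≤ (D i).card then (2 : ℝ) else 1) := by
      rw [prod_ite, prod_const_one, mul_one, prod_const]
    have e2 : (2 : ℝ) ^ (univ.filter (fun i => m i ≠ 1)).card
        = ∏ i, (if m i ≠ 1 then (2 : ℝ) else 1) := by
      rw [prod_ite, prod_const_one, mul_one, prod_const]
    rw [e1, e2, ← prod_mul_distrib, ← prod_mul_distrib]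
    apply prod_le_prod
    · intro i _
      split_ifs <;> positivity
    · intro i _
      have h1' : (m i : ℝ) ≤ (D i).card := by exact_mod_cast hmD i
      have hm0 : (0 : ℝ) ≤ m i := Nat.cast_nonneg _
      by_cases ha : 2 ≤ (D i).card
      · by_cases hb : m i ≠ 1
        · rw [if_pos ha, if_pos hb]
          linarith
        · rw [if_pos ha, if_neg hb]
          have hb' : m i = 1 := not_not.mp hb
          have : (2 : ℝ) ≤ (D i).card := by exact_mod_cast ha
          rw [hb']
          push_cast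
          linarith
      · rw [if_neg ha]
        by_cases hb : m i ≠ 1
        · rw [if_pos hb]
          linarith
        · rw [if_neg hb]
          linarith
  have hcard : ((Fintype.piFinset D).card : ℝ) = ∏ i, ((D i).card : ℝ) := by
    rw [Fintype.card_piFinset]
    push_cast
    rfl
  have hBc' : (B.card : ℝ) = ∏ i, (m i : ℝ) := by
    rw [hBc]
    push_cast
    rfl
  rw [← hBc', ← hcard] at key
  have hK0 : 0 ≤ K := by
    by_contra hcon
    push Not at hcon
    have h1 : K * S.card < 0 := mul_neg_of_neg_of_pos hcon hSp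
    have h2 : (0 : ℝ) ≤ ((S + S).card : ℝ) := Nat.cast_nonneg _
    linarith
  have hL0 : 0 ≤ L := by
    by_contra hcon
    push Not at hcon
    have h1 : L * S.card < 0 := mul_neg_of_neg_of_pos hcon hSp
    have h2 : (0 : ℝ) ≤ ((Fintype.piFinset D).card : ℝ) := Nat.cast_nonneg _
    linarith
  have h3 : (2 : ℝ) ^ (univ.filter (fun i => 2 ≤ (D i).card)).card * B.card
      ≤ (512 * K ^ 8 * L) * B.card := by
    calc (2 : ℝ) ^ (univ.filter (fun i => 2 ≤ (D i).card)).card * B.card
        ≤ 2 ^ (univ.filter (fun i => m i ≠ 1)).card * ((Fintype.piFinset D).card : ℝ) := key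
      _ ≤ (2 * K) * (L * (256 * K ^ 7 * B.card)) := by
          apply mul_le_mul hm2 _ (Nat.cast_nonneg _) (by positivity)
          exact hL.trans (mul_le_mul_of_nonneg_left hSB hL0)
      _ = _ := by ring
  exact le_of_mul_le_mul_right h3 hBp

/-- A combination of generators in the factors. -/
lemma combo {Z Γ : Type*} [AddCommGroup Z] [AddCommGroup Γ] {n : ℕ} (ψ : (Fin n → Z) →+ Γ)
    (d : Fin n → ℕ) (w : (i : Fin n) → Fin (d i) → Z) {r : ℕ}
    (e : Fin r ≃ (Σ i : Fin n, Fin (d i))) (k : Fin r → ℕ) :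
    ∑ j, k j • ψ (Pi.single (e j).1 (w (e j).1 (e j).2))
      = ψ (fun i => ∑ l, k (e.symm ⟨i, l⟩) • w i l) := by
  have h1 : ∑ j, k j • ψ (Pi.single (e j).1 (w (e j).1 (e j).2))
      = ∑ p : (Σ i : Fin n, Fin (d i)), k (e.symm p) • ψ (Pi.single p.1 (w p.1 p.2)) := by
    rw [← Equiv.sum_comp e]
    apply sum_congr rfl
    intro j _
    rw [Equiv.symm_apply_apply]
  rw [h1, Fintype.sum_sigma]
  have h2 : (fun i => ∑ l, k (e.symm ⟨i, l⟩) • w i l)
      = ∑ i, (Pi.single i (∑ l, k (e.symm ⟨i, l⟩) • w i l) : Fin n → Z) :=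
    (Finset.univ_sum_single (fun i => ∑ l, k (e.symm ⟨i, l⟩) • w i l)).symm
  rw [h2, map_sum]
  apply sum_congr rfl
  intro i _
  have h3 : (Pi.single i (∑ l, k (e.symm ⟨i, l⟩) • w i l) : Fin n → Z)
      = ∑ l, k (e.symm ⟨i, l⟩) • (Pi.single i (w i l) : Fin n → Z) := by
    have := map_sum (AddMonoidHom.single (fun _ : Fin n => Z) i)
      (fun l => k (e.symm ⟨i, l⟩) • w i l) univ
    simp only [map_nsmul, AddMonoidHom.single_apply] at this
    exact this
  rw [h3, map_sum]
  apply sum_congr rfl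
  intro l _
  rw [map_nsmul]

/-- **Freiman-Ruzsa for sets commensurable with a Cartesian product.** -/
theorem mainProd {Z Γ : Type*} [AddCommGroup Z] [DecidableEq Z] [AddCommGroup Γ] [DecidableEq Γ]
    (htf : ∀ (m : ℕ) (x : Z), m ≠ 0 → m • x = 0 → x = 0)
    (K L C : ℝ) (A : Finset Γ) (hA : A.Nonempty)
    (hK : ((A + A).card : ℝ) ≤ K * (A.card : ℝ))
    (n : ℕ) (D : Fin n → Finset Z) (c : Fin n → ℝ)
    (hc : ∀ i, ((D i + D i).card : ℝ) ≤ c i * ((D i).card : ℝ))
    (hC : 1 ≤ C) (hcC : ∀ i, c i ≤ C)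
    (hL : ((∏ i, (D i).card : ℕ) : ℝ) ≤ L * (A.card : ℝ))
    (ψ : (Fin n → Z) →+ Γ)
    (hψ : Set.InjOn ψ
      ((Fintype.piFinset D + Fintype.piFinset D : Finset (Fin n → Z)) : Set (Fin n → Z)))
    (X : Finset Γ) (hX : (X.card : ℝ) ≤ L)
    (hcov : ∀ a ∈ A, ∃ x ∈ X, ∃ s : Fin n → Z, (∀ i, s i ∈ D i) ∧ a = x + ψ s) :
    (2 : ℝ) ^ (univ.filter (fun i => 2 ≤ (D i).card)).card ≤ 512 * K ^ 8 * L ^ 10 ∧
    ∃ (r : ℕ) (v : Fin r → Γ) (N : Fin r → ℕ) (T : Finset Γ),
      (r : ℝ) ≤ 300 * Real.log (512 * K ^ 8 * L ^ 10 * ∏ i, c i) ∧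
      (∀ i, 1 ≤ N i) ∧
      ((∏ i, N i : ℕ) : ℝ) ≤ L * (A.card : ℝ) ∧
      (T.card : ℝ) ≤ L * (512 * K ^ 8 * L ^ 10 * ∏ i, c i) ^
        (17000 * (1 + Real.log (1 + Real.log (2 * C)))) ∧
      (∀ x ∈ A, ∃ t ∈ T, ∃ k : Fin r → ℕ, (∀ i, k i < N i) ∧ x = t + ∑ i, k i • v i) ∧
      (Function.Injective ψ → ∀ k k' : Fin r → ℕ, (∀ i, k i < N i) → (∀ i, k' i < N i) →
        ∑ i, k i • v i = ∑ i, k' i • v i → k = k') := by
  classical
  have hTF : IsAddTorsionFree Z := by
    refine ⟨fun m hm x y h => ?_⟩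
    have h1 : m • (x - y) = 0 := by
      rw [nsmul_sub]
      exact sub_eq_zero.2 h
    exact sub_eq_zero.1 (htf m _ hm h1)
  set DD : Finset (Fin n → Z) := Fintype.piFinset D with hDD
  have hAp : (0 : ℝ) < A.card := by exact_mod_cast hA.card_pos
  obtain ⟨a₁, ha₁⟩ := hA
  obtain ⟨x₁, hx₁, s₁, hs₁, _⟩ := hcov a₁ ha₁
  have hs₁D : s₁ ∈ DD := Fintype.mem_piFinset.mpr hs₁
  have hA : A.Nonempty := ⟨a₁, ha₁⟩
  have hXn : X.Nonempty := ⟨x₁, hx₁⟩
  have hXp : (0 : ℝ) < X.card := by exact_mod_cast hXn.card_pos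
  have hL1 : 1 ≤ L := by
    have : (1 : ℝ) ≤ X.card := by exact_mod_cast hXn.card_pos
    linarith
  have hK1 : 1 ≤ K := by
    have h1 : (A.card : ℝ) ≤ ((A + A).card : ℝ) := by
      exact_mod_cast card_le_card_add_left hA
    nlinarith
  have hDn : ∀ i, (D i).Nonempty := fun i => ⟨s₁ i, hs₁ i⟩
  have hc1 : ∀ i, 1 ≤ c i := by
    intro i
    have h1 : ((D i).card : ℝ) ≤ ((D i + D i).card : ℝ) := by
      exact_mod_cast card_le_card_add_left (hDn i)
    have h2 : (0 : ℝ) < (D i).card := by exact_mod_cast (hDn i).card_pos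
    have h3 := hc i
    nlinarith
  -- the largest piece
  obtain ⟨b, hbX, hb⟩ : ∃ b ∈ X, (A.card : ℝ) / X.card
      ≤ ((DD.filter (fun s => b + ψ s ∈ A)).card : ℝ) := by
    apply exists_le_of_sum_le hXn
    rw [sum_const, nsmul_eq_mul, mul_div_cancel₀ _ hXp.ne']
    have hsub : A ⊆ X.biUnion (fun b => (DD.filter (fun s => b + ψ s ∈ A)).image
        (fun s => b + ψ s)) := by
      intro a ha
      obtain ⟨x, hx, s, hs, hxs⟩ := hcov a ha
      rw [mem_biUnion]
      refine ⟨x, hx, mem_image.mpr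
        ⟨s, mem_filter.mpr ⟨Fintype.mem_piFinset.mpr hs, ?_⟩, hxs.symm⟩⟩
      rw [← hxs]
      exact ha
    have h1 : A.card ≤ ∑ b ∈ X, (DD.filter (fun s => b + ψ s ∈ A)).card := by
      refine (card_le_card hsub).trans (card_biUnion_le.trans ?_)
      exact sum_le_sum (fun b _ => card_image_le)
    exact_mod_cast h1
  set S := DD.filter (fun s => b + ψ s ∈ A) with hSdef
  have hSD : S ⊆ DD := filter_subset _ _
  have hSA : ∀ s ∈ S, b + ψ s ∈ A := fun s hs => (mem_filter.mp hs).2
  have hAS : (A.card : ℝ) ≤ L * S.card := by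
    rw [div_le_iff₀ hXp] at hb
    calc (A.card : ℝ) ≤ S.card * X.card := hb
      _ ≤ S.card * L := mul_le_mul_of_nonneg_left hX (Nat.cast_nonneg _)
      _ = _ := by ring
  have hSp : (0 : ℝ) < S.card := by
    by_contra hcon
    have : (S.card : ℝ) = 0 := le_antisymm (not_lt.mp hcon) (Nat.cast_nonneg _)
    rw [this] at hAS
    linarith
  have hS : S.Nonempty := by
    rw [← card_pos]
    exact_mod_cast hSp
  have hKS : ((S + S).card : ℝ) ≤ (K * L) * S.card := by
    have h1 : (S + S).card ≤ (A + A).card := by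
      apply card_le_card_of_injOn (fun z => b + b + ψ z)
      · intro z hz
        obtain ⟨x, hx, x', hx', rfl⟩ := mem_add.mp (mem_coe.mp hz)
        have e : b + b + ψ (x + x') = (b + ψ x) + (b + ψ x') := by rw [map_add]; abel
        simp only
        rw [e]
        exact mem_coe.mpr (add_mem_add (hSA x hx) (hSA x' hx'))
      · intro z hz z' hz' hzz
        have h2 : S + S ⊆ DD + DD := add_subset_add hSD hSD
        exact hψ (mem_coe.mpr (h2 (mem_coe.mp hz))) (mem_coe.mpr (h2 (mem_coe.mp hz')))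
          (add_left_cancel hzz)
    calc ((S + S).card : ℝ) ≤ ((A + A).card : ℝ) := by exact_mod_cast h1
      _ ≤ K * A.card := hK
      _ ≤ K * (L * S.card) := mul_le_mul_of_nonneg_left hAS (by linarith)
      _ = _ := by ring
  have hLS : (DD.card : ℝ) ≤ L ^ 2 * S.card := by
    calc (DD.card : ℝ) = ((∏ i, (D i).card : ℕ) : ℝ) := by
          rw [hDD, Fintype.card_piFinset]
      _ ≤ L * A.card := hL
      _ ≤ L * (L * S.card) := mul_le_mul_of_nonneg_left hAS (by linarith)
      _ = _ := by ring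
  have hfac := factors D S hS hSD (K * L) (L ^ 2) hKS hLS
  have eKL : 512 * (K * L) ^ 8 * L ^ 2 = 512 * K ^ 8 * L ^ 10 := by ring
  rw [eKL] at hfac
  refine ⟨hfac, ?_⟩
  -- the structure of the factors
  set E : ℝ := 17000 * (1 + Real.log (1 + Real.log (2 * C))) with hE
  have hlog2 : 0 < Real.log 2 := Real.log_pos (by norm_num)
  have hlogC : 0 ≤ Real.log (2 * C) := Real.log_nonneg (by linarith)
  have hE0 : 0 ≤ E := by
    have : 0 ≤ Real.log (1 + Real.log (2 * C)) := Real.log_nonneg (by linarith)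
    rw [hE]
    positivity
  set lam : Fin n → ℝ := fun i => if 2 ≤ (D i).card then Real.log (2 * c i) else 0 with hlam
  have step : ∀ i, ∃ (d : ℕ) (w : Fin d → Z) (M : Fin d → ℕ) (U : Finset Z),
      (d : ℝ) ≤ 300 * lam i ∧ (∀ j, 1 ≤ M j) ∧
      (∀ m m' : Fin d → ℕ, (∀ j, m j < M j) → (∀ j, m' j < M j) →
        ∑ j, m j • w j = ∑ j, m' j • w j → m = m') ∧
      ∏ j, M j ≤ (D i).card ∧
      (U.card : ℝ) ≤ Real.exp (E * lam i) ∧
      ∀ a ∈ D i, ∃ t ∈ U, ∃ m : Fin d → ℕ, (∀ j, m j < M j) ∧ a = t + ∑ j, m j • w j := by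
    intro i
    by_cases h2 : 2 ≤ (D i).card
    · obtain ⟨d, w, M, U, g1, g2, g3, g4, g5, g6⟩ := H112.near_pfr_gap' htf (hDn i) (hc i)
      have el : lam i = Real.log (2 * c i) := by
        rw [hlam]
        simp only
        rw [if_pos h2]
      refine ⟨d, w, M, U, ?_, g2, g3, g4, ?_, g6⟩
      · rw [el]
        exact g1
      · rw [el]
        refine g5.trans ?_
        have hp : 0 < 2 * c i := by linarith [hc1 i]
        rw [Real.rpow_def_of_pos hp]
        apply Real.exp_le_exp.mpr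
        have hl0 : 0 ≤ Real.log (2 * c i) := Real.log_nonneg (by linarith [hc1 i])
        rw [mul_comm]
        apply mul_le_mul_of_nonneg_right _ hl0
        rw [hE]
        have m1 : Real.log (2 * c i) ≤ Real.log (2 * C) :=
          Real.log_le_log hp (by linarith [hcC i])
        have m2 : Real.log (1 + Real.log (2 * c i)) ≤ Real.log (1 + Real.log (2 * C)) :=
          Real.log_le_log (by linarith) (by linarith)
        linarith
    · have el : lam i = 0 := by
        rw [hlam]
        simp only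
        rw [if_neg h2]
      have hone : (D i).card = 1 := by
        have := (hDn i).card_pos
        omega
      refine ⟨0, Fin.elim0, Fin.elim0, D i, ?_, fun j => j.elim0, ?_, ?_, ?_, ?_⟩
      · rw [el]
        simp
      · intro m m' _ _ _
        exact Subsingleton.elim _ _
      · rw [hone]
        simp
      · rw [el, hone]
        simp
      · intro a ha
        exact ⟨a, ha, Fin.elim0, fun j => j.elim0, by simp⟩
  choose d w M U g1 g2 g3 g4 g5 g6 using step
  -- the sum of the logarithms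
  set W : ℝ := 512 * K ^ 8 * L ^ 10 * ∏ i, c i with hW
  have hprodc : 1 ≤ ∏ i, c i := by
    have : ∏ i : Fin n, (1 : ℝ) ≤ ∏ i, c i :=
      prod_le_prod (fun i _ => zero_le_one) (fun i _ => hc1 i)
    simpa using this
  have hQ : 0 < 512 * K ^ 8 * L ^ 10 := by positivity
  have hWp : 0 < W := by
    rw [hW]
    positivity
  have hsum : ∑ i, lam i ≤ Real.log W := by
    have h1 : ∑ i, lam i ≤ ∑ i, ((if 2 ≤ (D i).card then Real.log 2 else 0) + Real.log (c i)) := by
      apply sum_le_sum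
      intro i _
      rw [hlam]
      simp only
      have hci : 0 < c i := by linarith [hc1 i]
      by_cases h2 : 2 ≤ (D i).card
      · rw [if_pos h2, if_pos h2, Real.log_mul (by norm_num) hci.ne']
      · rw [if_neg h2, if_neg h2]
        have := Real.log_nonneg (hc1 i)
        linarith
    refine h1.trans ?_
    rw [sum_add_distrib, ← Real.log_prod (fun i _ => by linarith [hc1 i])]
    rw [hW, Real.log_mul hQ.ne' (by linarith)]
    apply add_le_add_left
    rw [← sum_filter, sum_const, nsmul_eq_mul, ← Real.log_pow]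
    exact Real.log_le_log (by positivity) hfac
  -- assembling
  set J := (Σ i : Fin n, Fin (d i)) with hJ
  set r := Fintype.card J with hr
  set e : Fin r ≃ J := (Fintype.equivFin J).symm with he
  set T : Finset Γ := (X ×ˢ Fintype.piFinset U).image (fun p => p.1 + ψ p.2) with hT
  refine ⟨r, fun j => ψ (Pi.single (e j).1 (w (e j).1 (e j).2)), fun j => M (e j).1 (e j).2, T,
    ?_, fun j => g2 _ _, ?_, ?_, ?_, ?_⟩
  · have h1 : (r : ℝ) = ∑ i, (d i : ℝ) := by
      rw [hr, Fintype.card_sigma]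
      push_cast
      apply sum_congr rfl
      intro i _
      rw [Fintype.card_fin]
    rw [h1]
    calc ∑ i, (d i : ℝ) ≤ ∑ i, 300 * lam i := sum_le_sum (fun i _ => g1 i)
      _ = 300 * ∑ i, lam i := by rw [mul_sum]
      _ ≤ _ := mul_le_mul_of_nonneg_left hsum (by norm_num)
  · refine le_trans ?_ hL
    have h1 : ∏ j, M (e j).1 (e j).2 = ∏ i, ∏ l, M i l := by
      rw [Equiv.prod_comp e (fun p : J => M p.1 p.2), Fintype.prod_sigma]
    rw [h1]
    exact_mod_cast prod_le_prod (fun i _ => Nat.zero_le _) (fun i _ => g4 i)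
  · have h1 : (T.card : ℝ) ≤ X.card * ∏ i, ((U i).card : ℝ) := by
      have : T.card ≤ X.card * ∏ i, (U i).card := by
        refine card_image_le.trans ?_
        rw [card_product, Fintype.card_piFinset]
      exact_mod_cast this
    refine h1.trans ?_
    have h2 : ∏ i, ((U i).card : ℝ) ≤ W ^ E := by
      calc ∏ i, ((U i).card : ℝ) ≤ ∏ i, Real.exp (E * lam i) :=
            prod_le_prod (fun i _ => Nat.cast_nonneg _) (fun i _ => g5 i)
        _ = Real.exp (E * ∑ i, lam i) := by rw [← Real.exp_sum, mul_sum]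
        _ ≤ Real.exp (Real.log W * E) := by
            apply Real.exp_le_exp.mpr
            rw [mul_comm]
            exact mul_le_mul_of_nonneg_right hsum hE0
        _ = W ^ E := by rw [Real.rpow_def_of_pos hWp]
    exact mul_le_mul hX h2 (prod_nonneg (fun i _ => Nat.cast_nonneg _)) (by linarith)
  · intro x hx
    obtain ⟨x₀, hx₀, s, hs, hxs⟩ := hcov x hx
    choose t ht m hm hst using fun i => g6 i (s i) (hs i)
    refine ⟨x₀ + ψ t, mem_image.mpr ⟨(x₀, t), mem_product.mpr
      ⟨hx₀, Fintype.mem_piFinset.mpr ht⟩, rfl⟩, fun j => m (e j).1 (e j).2,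
      fun j => hm _ _, ?_⟩
    rw [combo ψ d w e (fun j => m (e j).1 (e j).2)]
    have h1 : (fun i => ∑ l, m (e (e.symm ⟨i, l⟩)).1 (e (e.symm ⟨i, l⟩)).2 • w i l)
        = fun i => ∑ l, m i l • w i l := by
      funext i
      apply sum_congr rfl
      intro l _
      rw [Equiv.apply_symm_apply]
    have h2 : s = t + fun i => ∑ l, m i l • w i l := by
      funext i
      exact hst i
    rw [h1, add_assoc, ← map_add, ← h2]
    exact hxs
  · intro hinj k k' hk hk' hkk
    have hMe : ∀ p : J, M (e (e.symm p)).1 (e (e.symm p)).2 = M p.1 p.2 := by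
      intro p
      rw [Equiv.apply_symm_apply]
    rw [combo ψ d w e k, combo ψ d w e k'] at hkk
    have h1 := hinj hkk
    have h2 : ∀ i, (fun l => k (e.symm ⟨i, l⟩)) = fun l => k' (e.symm ⟨i, l⟩) := by
      intro i
      apply g3 i
      · intro l
        exact lt_of_lt_of_eq (hk (e.symm ⟨i, l⟩)) (hMe ⟨i, l⟩)
      · intro l
        exact lt_of_lt_of_eq (hk' (e.symm ⟨i, l⟩)) (hMe ⟨i, l⟩)
      · exact congrFun h1 i
    funext j
    have h3 := congrFun (h2 (e j).1) (e j).2
    simp only [Sigma.eta, Equiv.symm_apply_apply] at h3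
    exact h3

end Pool.Agent.TH893.PP
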